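import Mathlib
import Pool.Agent.H436R3.MainC

/-!
# Smooth orbifold pairs which are weakly uniruled but not uniruled

`X = P^2`, and `D = ∑ c_j L_j` for `d ≥ 7` lines in general position and rational coefficients
`c_j ≥ 2 / (d - 2)` with `∑ c_j < 3`, for instance seven lines with `c_j = 2 / 5`
(multiplicities `5 / 3`). Every line of the plane has negative degree with respect to `K + D`, but
for every rational curve through a very general point the degree of `K_C + D_C` is `≥ 0`.
This is proved for the smallest orbifold divisor `D_C` for which the curve is an orbifold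
morphism, and also for the one given by the formula printed in the problem file.
-/

set_option autoImplicit false

namespace Pool.Agent.Results.MP_4be736_ag.WeaklyNotUniruled

open Pool.Agent.H436R3

/-- For every `d ≥ 7` there is a smooth orbifold pair `(P^2, D)`, with `D` supported on `d` lines
in general position, with coefficients `2 / (d - 2)`, which is weakly uniruled; and no pair
`(P^2, D)`, with `D` supported on `d` lines in general position with coefficients at least
`2 / (d - 2)`, is uniruled, for either reading of the definition of `D_C`. -/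
theorem result : ∀ d : ℕ, 7 ≤ d →
    (∃ P : PlaneOrbifold d, (∀ j, P.c j = (2 : ℚ) / (d - 2)) ∧ P.IsWeaklyUniruled) ∧
    ∀ P : PlaneOrbifold d, (∀ j, (2 : ℚ) / (d - 2) ≤ P.c j) →
      ¬ P.IsUniruledWith P.multMin ∧ ¬ P.IsUniruledWith P.multLit ∧
      VeryGeneral fun x => ∀ γ : RatCurve, 1 ≤ γ.e → (∀ j, γ.pull (P.ℓ j) ≠ 0) →
        γ.Through x → 0 ≤ P.degC γ (P.multMin γ) ∧ 0 ≤ P.degC γ (P.multLit γ) := by
  intro d hd
  refine ⟨?_, fun P hP => ?_⟩
  · obtain ⟨P, h1, h2⟩ := exists_pair_general d hd
    exact ⟨P, h1, isWeaklyUniruled P h2⟩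
  · obtain ⟨h1, h2⟩ := not_isUniruledWith (by omega) P hP
    exact ⟨h1, h2, veryGeneral_degC (by omega) P hP⟩

end Pool.Agent.Results.MP_4be736_ag.WeaklyNotUniruled
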